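import Mathlib

set_option autoImplicit false

namespace Pool.Agent.Results.MP_3d6951_co.NotPolyhedron

/-- A finite connected oriented network, recorded as an oriented ribbon graph.

`I` is the set of interior vertices, `B` the set of boundary vertices, `E` the set of edges.
At an interior vertex `x` the incident edge-ends are, in counterclockwise order,
`e₁ x`, `e₂ x` (incoming) and `f₁ x`, `f₂ x` (outgoing); a boundary vertex has degree at most one.

Such data determine a compact connected oriented surface `S` with non-empty boundary (the ribbon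
surface: thicken every vertex to a disc and every edge to a band, following the cyclic orders),
in which the network is drawn with its interior vertices in the interior and its boundary
vertices on the boundary, and which deformation retracts onto the network. -/
structure Network where
  I : Type
  B : Type
  E : Type
  src : E → I ⊕ B
  tgt : E → I ⊕ B
  e₁ : I → E
  e₂ : I → E
  f₁ : I → E
  f₂ : I → E
  finI : Fintype I
  finB : Fintype B
  finE : Fintype E
  tgt_eq_iff : ∀ (x : I) (ε : E), tgt ε = Sum.inl x ↔ ε = e₁ x ∨ ε = e₂ x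
  src_eq_iff : ∀ (x : I) (ε : E), src ε = Sum.inl x ↔ ε = f₁ x ∨ ε = f₂ x
  e_ne : ∀ x : I, e₁ x ≠ e₂ x
  f_ne : ∀ x : I, f₁ x ≠ f₂ x
  degree_le_one : ∀ y : B,
    {ε : E | src ε = Sum.inr y}.ncard + {ε : E | tgt ε = Sum.inr y}.ncard ≤ 1
  connected : ∀ x y : I ⊕ B, Relation.EqvGen (fun x y => ∃ ε : E, src ε = x ∧ tgt ε = y) x y

attribute [instance] Network.finI Network.finB Network.finE

open scoped Classical in
/-- The boundary operator of the network, on cellular 1-chains with integer coefficients. -/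
noncomputable def Network.bd (N : Network) : (N.E → ℤ) →+ (N.I ⊕ N.B → ℤ) where
  toFun c := fun x => (∑ ε : N.E, if N.tgt ε = x then c ε else 0) -
    ∑ ε : N.E, if N.src ε = x then c ε else 0
  map_zero' := by
    funext x
    simp
  map_add' := by
    intro c d
    funext x
    simp only [Pi.add_apply]
    rw [← sub_eq_zero]
    have h1 : ∀ ε, (if N.tgt ε = x then c ε + d ε else 0) =
        (if N.tgt ε = x then c ε else 0) + (if N.tgt ε = x then d ε else 0) := by
      intro ε; split_ifs <;> simp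
    have h2 : ∀ ε, (if N.src ε = x then c ε + d ε else 0) =
        (if N.src ε = x then c ε else 0) + (if N.src ε = x then d ε else 0) := by
      intro ε; split_ifs <;> simp
    simp only [h1, h2, Finset.sum_add_distrib]
    ring

/-- `H_1(S, ℤ)` for the ribbon surface `S` of the network: the cellular 1-cycles of the graph. -/
noncomputable def Network.H1 (N : Network) : AddSubgroup (N.E → ℤ) := N.bd.ker

/-- One may continue from the edge `ε` to the edge `ε'` at an interior vertex, unless one would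
enter it through `e₂` and leave it through `f₂`. -/
def Network.Step (N : Network) (ε ε' : N.E) : Prop :=
  ∃ x : N.I, (ε = N.e₁ x ∨ ε = N.e₂ x) ∧ (ε' = N.f₁ x ∨ ε' = N.f₂ x) ∧
    ¬ (ε = N.e₂ x ∧ ε' = N.f₂ x)

/-- `q` is (the edge sequence of) a highway path from the boundary vertex `u` to the boundary
vertex `v`. -/
def Network.HighwayPath (N : Network) (u v : N.B) (q : List N.E) : Prop :=
  q.IsChain N.Step ∧ (∃ ε ∈ q.head?, N.src ε = Sum.inr u) ∧ (∃ ε ∈ q.getLast?, N.tgt ε = Sum.inr v)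

open scoped Classical in
/-- The 1-chain of an edge sequence: how many times each edge is traversed. -/
noncomputable def Network.chain (N : Network) (q : List N.E) : N.E → ℤ := fun ε => q.count ε

open scoped Classical in
/-- `p` is the 1-chain of a basepath from `u` to `v`: its boundary is `v - u`. -/
def Network.IsBase (N : Network) (u v : N.B) (p : N.E → ℤ) : Prop :=
  N.bd p = Pi.single (Sum.inr v) 1 - Pi.single (Sum.inr u) 1

/-- `H(u,v)`: the homology classes of `q ∪ p*`, for `q` a highway path from `u` to `v`. -/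
def Network.H (N : Network) (u v : N.B) (p : N.E → ℤ) : Set N.H1 :=
  {h | ∃ q : List N.E, N.HighwayPath u v q ∧ (h : N.E → ℤ) = N.chain q - p}

/-- `T` is the set of lattice points of a polyhedron in `ℝ^a` (the solution set of finitely many
affine linear inequalities), with no line-freeness required. -/
def IsLatticePolyhedron {a : ℕ} (T : Set (Fin a → ℤ)) : Prop :=
  ∃ (k : ℕ) (A : Fin k → Fin a → ℝ) (b : Fin k → ℝ),
    T = {x | ∀ i, ∑ j, A i j * (x j : ℝ) ≤ b i}

/-! ### The example -/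

def srcA : Fin 11 → Fin 4 ⊕ Fin 6 :=
  ![.inr 0, .inr 1, .inl 0, .inl 0, .inl 2, .inl 3, .inl 2, .inr 2, .inl 3, .inl 1, .inl 1]
def tgtA : Fin 11 → Fin 4 ⊕ Fin 6 :=
  ![.inl 0, .inl 0, .inl 1, .inl 2, .inl 3, .inl 2, .inr 3, .inl 3, .inl 1, .inr 4, .inr 5]
def e1A : Fin 4 → Fin 11 := ![0, 8, 5, 4]
def e2A : Fin 4 → Fin 11 := ![1, 2, 3, 7]
def f1A : Fin 4 → Fin 11 := ![2, 9, 4, 8]
def f2A : Fin 4 → Fin 11 := ![3, 10, 6, 5]

lemma conn_aux : ∀ x y : Fin 4 ⊕ Fin 6,
    Relation.EqvGen (fun x y => ∃ ε : Fin 11, srcA ε = x ∧ tgtA ε = y) x y := by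
  have hE : ∀ ε : Fin 11, Relation.EqvGen (fun x y => ∃ ε : Fin 11, srcA ε = x ∧ tgtA ε = y)
      (srcA ε) (tgtA ε) := fun ε => Relation.EqvGen.rel _ _ ⟨ε, rfl, rfl⟩
  have h0 := hE 0
  have h1 := hE 1
  have h2 := hE 2
  have h3 := hE 3
  have h4 := hE 4
  have h6 := hE 6
  have h7 := hE 7
  have h9 := hE 9
  have h10 := hE 10
  have key : ∀ x : Fin 4 ⊕ Fin 6,
      Relation.EqvGen (fun x y => ∃ ε : Fin 11, srcA ε = x ∧ tgtA ε = y) (Sum.inl 0) x := by
    have a1 : Relation.EqvGen (fun x y => ∃ ε : Fin 11, srcA ε = x ∧ tgtA ε = y)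
      (Sum.inl 0) (Sum.inl 1) := h2
    have a2 : Relation.EqvGen (fun x y => ∃ ε : Fin 11, srcA ε = x ∧ tgtA ε = y)
      (Sum.inl 0) (Sum.inl 2) := h3
    have a3 : Relation.EqvGen (fun x y => ∃ ε : Fin 11, srcA ε = x ∧ tgtA ε = y)
      (Sum.inl 0) (Sum.inl 3) := Relation.EqvGen.trans _ _ _ a2 h4
    rintro (x | x)
    · fin_cases x
      · exact Relation.EqvGen.refl _
      · exact a1
      · exact a2
      · exact a3
    · fin_cases x
      · exact Relation.EqvGen.symm _ _ h0
      · exact Relation.EqvGen.symm _ _ h1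
      · exact Relation.EqvGen.trans _ _ _ a3 (Relation.EqvGen.symm _ _ h7)
      · exact Relation.EqvGen.trans _ _ _ a2 h6
      · exact Relation.EqvGen.trans _ _ _ a1 h9
      · exact Relation.EqvGen.trans _ _ _ a1 h10
  intro x y
  exact Relation.EqvGen.trans _ _ _ (Relation.EqvGen.symm _ _ (key x)) (key y)

/-- The example: interior vertices `a = 0`, `b = 1`, `c = 2`, `c' = 3`; boundary vertices
`u = 0`, `v = 4` and four others. -/
def ex : Network where
  I := Fin 4
  B := Fin 6
  E := Fin 11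
  src := srcA
  tgt := tgtA
  e₁ := e1A
  e₂ := e2A
  f₁ := f1A
  f₂ := f2A
  finI := inferInstance
  finB := inferInstance
  finE := inferInstance
  tgt_eq_iff := by decide
  src_eq_iff := by decide
  e_ne := by decide
  f_ne := by decide
  degree_le_one := by
    intro y
    rw [Set.ncard_eq_toFinset_card', Set.ncard_eq_toFinset_card']
    revert y
    decide
  connected := conn_aux


/-! ### The proof -/

lemma ite_irr {p : Prop} (d₁ d₂ : Decidable p) (a b : ℤ) :
    @ite ℤ p d₁ a b = @ite ℤ p d₂ a b := by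
  by_cases h : p
  · rw [if_pos h, if_pos h]
  · rw [if_neg h, if_neg h]

lemma bd_apply (c : Fin 11 → ℤ) (x : Fin 4 ⊕ Fin 6) :
    ex.bd c x = (∑ ε : Fin 11, if tgtA ε = x then c ε else 0) -
      ∑ ε : Fin 11, if srcA ε = x then c ε else 0 := by
  unfold Network.bd
  refine congrArg₂ (fun a b : ℤ => a - b) ?_ ?_ <;>
    exact Finset.sum_congr rfl (fun ε _ => ite_irr _ _ _ _)

lemma chain_apply (q : List (Fin 11)) (ε : Fin 11) : ex.chain q ε = (q.count ε : ℤ) := by
  have h : ex.chain q ε = ((@List.count (Fin 11)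
    (@instBEqOfDecidableEq _ (fun a b => Classical.propDecidable (a = b))) ε q : ℕ) : ℤ) := rfl
  rw [h]
  congr 2
  exact congrArg _ (Subsingleton.elim _ _)

/-- The cycle through `E4` and `E5`. -/
def cyc : Fin 11 → ℤ := fun ε => if ε = 4 ∨ ε = 5 then 1 else 0

lemma bd_cyc : ex.bd cyc = 0 := by
  funext x
  rw [bd_apply]
  revert x
  decide

def vP : Fin 11 → ℤ := fun ε => if ε = 0 ∨ ε = 2 ∨ ε = 9 then 1 else 0

def vQ : Fin 11 → ℤ := fun ε => if ε = 0 ∨ ε = 3 ∨ ε = 4 ∨ ε = 8 ∨ ε = 9 then 1 else 0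

lemma base_P : ex.IsBase (0 : Fin 6) (4 : Fin 6) vP := by
  classical
  unfold Network.IsBase
  funext x
  rw [bd_apply]
  have : ∀ x : Fin 4 ⊕ Fin 6, (∑ ε : Fin 11, if tgtA ε = x then vP ε else 0) -
      (∑ ε : Fin 11, if srcA ε = x then vP ε else 0) =
      (if x = Sum.inr 4 then 1 else 0) - (if x = Sum.inr 0 then 1 else 0) := by decide
  rw [this x, Pi.sub_apply, Pi.single_apply, Pi.single_apply]
  refine congrArg₂ (fun a b : ℤ => a - b) ?_ ?_ <;> exact ite_irr _ _ _ _


lemma base_Q : ex.IsBase (0 : Fin 6) (4 : Fin 6) vQ := by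
  classical
  unfold Network.IsBase
  funext x
  rw [bd_apply]
  have : ∀ x : Fin 4 ⊕ Fin 6, (∑ ε : Fin 11, if tgtA ε = x then vQ ε else 0) -
      (∑ ε : Fin 11, if srcA ε = x then vQ ε else 0) =
      (if x = Sum.inr 4 then 1 else 0) - (if x = Sum.inr 0 then 1 else 0) := by decide
  rw [this x, Pi.sub_apply, Pi.single_apply, Pi.single_apply]
  refine congrArg₂ (fun a b : ℤ => a - b) ?_ ?_ <;> exact ite_irr _ _ _ _

/-- `Step` in the example, in a decidable form. -/
def StepA (x y : Fin 11) : Prop :=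
  ∃ z : Fin 4, (x = e1A z ∨ x = e2A z) ∧ (y = f1A z ∨ y = f2A z) ∧ ¬ (x = e2A z ∧ y = f2A z)

instance : ∀ x y, Decidable (StepA x y) := fun x y => by unfold StepA; infer_instance

lemma step_iff (x y : Fin 11) : ex.Step x y ↔ StepA x y := Iff.rfl

lemma step_avoid : ∀ x y : Fin 11, StepA x y → (x ≠ 3 ∧ x ≠ 4 ∧ x ≠ 5 ∧ x ≠ 7) →
    y ≠ 4 ∧ y ≠ 5 := by decide

lemma avoid : ∀ (l : List (Fin 11)) (x : Fin 11), (x :: l).IsChain StepA →
    (x ≠ 3 ∧ x ≠ 4 ∧ x ≠ 5 ∧ x ≠ 7) → 3 ∉ l → 7 ∉ l → 4 ∉ l := by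
  intro l
  induction l with
  | nil => intro x _ _ _ _; simp
  | cons y l ih =>
    intro x hc hx h3 h7
    rw [List.isChain_cons_cons] at hc
    have hy := step_avoid x y hc.1 hx
    rw [List.mem_cons, not_or] at h3 h7 ⊢
    exact ⟨fun h => hy.1 h.symm, ih y hc.2 ⟨fun h => h3.1 h.symm, hy.1, hy.2,
      fun h => h7.1 h.symm⟩ h3.2 h7.2⟩

/-- The end part of the highway path winding `k` times round the cycle. -/
def T : ℕ → List (Fin 11)
  | 0 => [4, 8, 9]
  | k + 1 => 4 :: 5 :: T k

lemma T_head (k : ℕ) : ∃ l, T k = 4 :: l := by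
  cases k with
  | zero => exact ⟨_, rfl⟩
  | succ k => exact ⟨_, rfl⟩

lemma T_chain (k : ℕ) : (T k).IsChain StepA := by
  induction k with
  | zero =>
    have h1 : StepA 4 8 := by decide
    have h2 : StepA 8 9 := by decide
    simp [T, h1, h2]
  | succ k ih =>
    obtain ⟨l, hl⟩ := T_head k
    have h1 : StepA 4 5 := by decide
    have h2 : StepA 5 4 := by decide
    rw [hl] at ih
    simp only [T, hl, List.isChain_cons_cons]
    exact ⟨h1, h2, ih⟩

lemma T_last (k : ℕ) : (T k).getLast? = some 9 := by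
  induction k with
  | zero => rfl
  | succ k ih =>
    obtain ⟨l, hl⟩ := T_head k
    simp only [T, hl, List.getLast?_cons_cons]
    rw [hl] at ih
    exact ih

lemma T_count (k : ℕ) (ε : Fin 11) : (((0 :: 3 :: T k).count ε : ℕ) : ℤ) = vQ ε + k * cyc ε := by
  induction k with
  | zero => revert ε; decide
  | succ k ih =>
    have h : (0 :: 3 :: T (k + 1)).count ε = (0 :: 3 :: T k).count ε +
        (if ε = 4 ∨ ε = 5 then 1 else 0) := by
      simp only [T, List.count_cons]
      revert ε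
      intro ε _
      fin_cases ε <;> simp
    rw [h]
    push_cast
    rw [ih]
    simp only [cyc]
    split_ifs <;> ring

lemma high_Q (k : ℕ) : ex.HighwayPath (0 : Fin 6) (4 : Fin 6)
    ((0 : Fin 11) :: (3 : Fin 11) :: T k) := by
  refine ⟨?_, ⟨(0 : Fin 11), rfl, rfl⟩, ⟨(9 : Fin 11), ?_, rfl⟩⟩
  · show (0 :: 3 :: T k : List (Fin 11)).IsChain StepA
    obtain ⟨l, hl⟩ := T_head k
    have h1 : StepA 0 3 := by decide
    have h2 : StepA 3 4 := by decide
    have h3 := T_chain k
    rw [hl] at h3 ⊢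
    simp only [List.isChain_cons_cons]
    exact ⟨h1, h2, h3⟩
  · show (0 :: 3 :: T k : List (Fin 11)).getLast? = some 9
    obtain ⟨l, hl⟩ := T_head k
    have h3 := T_last k
    rw [hl] at h3 ⊢
    simpa using h3

lemma high_P : ex.HighwayPath (0 : Fin 6) (4 : Fin 6) [(0 : Fin 11), (2 : Fin 11), (9 : Fin 11)] := by
  refine ⟨?_, ⟨(0 : Fin 11), rfl, rfl⟩, ⟨(9 : Fin 11), rfl, rfl⟩⟩
  show ([0, 2, 9] : List (Fin 11)).IsChain StepA
  have h1 : StepA 0 2 := by decide
  have h2 : StepA 2 9 := by decide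
  simp [h1, h2]

/-- No highway path from `u` to `v` has 1-chain `P + C`. -/
lemma no_path (q : List (Fin 11)) (hq : ex.HighwayPath (0 : Fin 6) (4 : Fin 6) q)
    (h : ∀ ε : Fin 11, ex.chain q ε = vP ε + cyc ε) : False := by
  obtain ⟨h1, ⟨x, hx, hx0⟩, -⟩ := hq
  have hc : ∀ ε : Fin 11, ((q.count ε : ℕ) : ℤ) = vP ε + cyc ε := fun ε => by
    rw [← chain_apply, h]
  have hx00 : x = (0 : Fin 11) := by
    have : ∀ x : Fin 11, srcA x = Sum.inr 0 → x = 0 := by decide
    exact this x hx0
  subst hx00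
  cases q with
  | nil =>
    have hx' : (none : Option (Fin 11)) = some 0 := hx
    exact absurd hx' (by simp)
  | cons y l =>
    have hx' : (some y : Option (Fin 11)) = some 0 := hx
    have hy : y = 0 := by simpa using hx'
    subst hy
    have e3 : (3 : Fin 11) ∉ ((0 : Fin 11) :: l) := by
      rw [← List.count_eq_zero]
      have := hc 3
      have h3 : vP 3 + cyc 3 = 0 := by decide
      rw [h3] at this
      exact_mod_cast this
    have e7 : (7 : Fin 11) ∉ ((0 : Fin 11) :: l) := by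
      rw [← List.count_eq_zero]
      have := hc 7
      have h3 : vP 7 + cyc 7 = 0 := by decide
      rw [h3] at this
      exact_mod_cast this
    have e4 : (4 : Fin 11) ∉ ((0 : Fin 11) :: l) := by
      have := avoid l 0 h1 (by decide) (fun h => e3 (List.mem_cons_of_mem _ h))
        (fun h => e7 (List.mem_cons_of_mem _ h))
      rw [List.mem_cons, not_or]
      exact ⟨by decide, this⟩
    have := hc 4
    rw [List.count_eq_zero.2 e4] at this
    revert this
    decide



/-- A set containing `P` and the progression `Q + n C`, if polyhedral, contains `P + C`. -/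
lemma poly_closed {G : Type} [AddCommGroup G] {a : ℕ} (φ : G ≃+ (Fin a → ℤ)) (S : Set G)
    (P Q C : G) (hP : P ∈ S) (hQ : ∀ n : ℕ, Q + n • C ∈ S)
    (hS : IsLatticePolyhedron (φ '' S)) : P + C ∈ S := by
  obtain ⟨k, A, b, hT⟩ := hS
  have hQn : ∀ n : ℕ, φ (Q + n • C) ∈ φ '' S := fun n => ⟨_, hQ n, rfl⟩
  have hPm : φ P ∈ φ '' S := ⟨_, hP, rfl⟩
  have hlin : ∀ i, ∑ j, A i j * ((φ C j : ℤ) : ℝ) ≤ 0 := by
    intro i
    by_contra hcon
    push Not at hcon
    obtain ⟨n, hn⟩ := exists_nat_gt ((b i - ∑ j, A i j * ((φ Q j : ℤ) : ℝ)) /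
      ∑ j, A i j * ((φ C j : ℤ) : ℝ))
    rw [div_lt_iff₀ hcon] at hn
    have h1 := hQn n
    rw [hT] at h1
    have h2 := h1 i
    have h3 : ∑ j, A i j * ((φ (Q + n • C) j : ℤ) : ℝ) =
        ∑ j, A i j * ((φ Q j : ℤ) : ℝ) + n * ∑ j, A i j * ((φ C j : ℤ) : ℝ) := by
      rw [Finset.mul_sum, ← Finset.sum_add_distrib]
      refine Finset.sum_congr rfl (fun j _ => ?_)
      rw [map_add, map_nsmul, Pi.add_apply, Pi.smul_apply, nsmul_eq_mul]
      push_cast
      ring
    rw [h3] at h2
    linarith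
  have hmem : φ (P + C) ∈ φ '' S := by
    rw [hT]
    intro i
    have h1 := hPm
    rw [hT] at h1
    have h2 := h1 i
    have h3 : ∑ j, A i j * ((φ (P + C) j : ℤ) : ℝ) =
        ∑ j, A i j * ((φ P j : ℤ) : ℝ) + ∑ j, A i j * ((φ C j : ℤ) : ℝ) := by
      rw [← Finset.sum_add_distrib]
      refine Finset.sum_congr rfl (fun j _ => ?_)
      rw [map_add, Pi.add_apply]
      push_cast
      ring
    rw [h3]
    have := hlin i
    linarith
  obtain ⟨h, hh, hφ⟩ := hmem
  rwa [← φ.injective hφ]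

lemma mem_H1 {c : ex.E → ℤ} (h : ex.bd c = 0) : c ∈ ex.H1 := (AddMonoidHom.mem_ker).2 h

/-- **Negative answer.**  There are a compact connected oriented surface (the ribbon surface of the
network `N`), and boundary vertices `u`, `v` such that for every basepath `p` and every
identification `φ` of `H_1` with `ℤ^a`, the set `H(u,v)` is not the set of lattice points of any
polyhedron (pointed or not). -/
theorem result : ∃ (N : Network) (u v : N.B), (∃ p, N.IsBase u v p) ∧
    ∀ p, N.IsBase u v p → ∀ (a : ℕ) (φ : N.H1 ≃+ (Fin a → ℤ)),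
      ¬ IsLatticePolyhedron (φ '' N.H u v p) := by
  refine ⟨ex, (0 : Fin 6), (4 : Fin 6), ⟨vP, base_P⟩, ?_⟩
  intro p hp a φ hpoly
  have hP0 : (show ex.E → ℤ from vP) - p ∈ ex.H1 := by
    apply mem_H1
    rw [map_sub]
    have h1 := base_P
    unfold Network.IsBase at h1 hp
    rw [hp, h1, sub_self]
  have hQ0 : (show ex.E → ℤ from vQ) - p ∈ ex.H1 := by
    apply mem_H1
    rw [map_sub]
    have h1 := base_Q
    unfold Network.IsBase at h1 hp
    rw [hp, h1, sub_self]
  have hC0 : (show ex.E → ℤ from cyc) ∈ ex.H1 := mem_H1 bd_cyc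
  obtain ⟨q, hq, hh⟩ := poly_closed φ (ex.H (0 : Fin 6) (4 : Fin 6) p) ⟨_, hP0⟩ ⟨_, hQ0⟩ ⟨_, hC0⟩
    (by
      refine ⟨_, high_P, ?_⟩
      funext ε
      have h1 := chain_apply [(0 : Fin 11), (2 : Fin 11), (9 : Fin 11)] ε
      have h2 : ∀ ε : Fin 11, vP ε =
        (([(0 : Fin 11), (2 : Fin 11), (9 : Fin 11)].count ε : ℕ) : ℤ) := by decide
      exact congrArg (fun t : ℤ => t - p ε) ((h2 ε).trans h1.symm))
    (by
      intro n
      refine ⟨_, high_Q n, ?_⟩
      funext ε
      have h2 := chain_apply ((0 : Fin 11) :: (3 : Fin 11) :: T n) ε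
      have h3 := T_count n ε
      have h4 : ∀ x y z : ℤ, (x - y) + n • z = (x + n * z) - y := by
        intro x y z
        rw [nsmul_eq_mul]
        ring
      exact (h4 _ _ _).trans (congrArg (fun t : ℤ => t - p ε) (h2.trans h3).symm))
    hpoly
  apply no_path q hq
  intro ε
  have h1 : (vP ε - p ε) + cyc ε = ex.chain q ε - p ε := congrFun hh ε
  linarith

end Pool.Agent.Results.MP_3d6951_co.NotPolyhedron
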